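import Pool.Agent.R475.Ray.Main

/-!
# Every open subspace of a ray space is a quasi-ray space
-/

set_option autoImplicit false

namespace Pool.Agent.Results.MP_a0fd6e_gt.OpenSubspacesQuasiRay

open Pool.Agent.R475.Ray

universe u

/-- **Main theorem.**  Every open subspace `U` of a ray space `X` is a quasi-ray space: `U` has a
topology, coarser than (or equal to) the subspace topology, which makes it a ray space. -/
theorem result (X : Type u) [TopologicalSpace X] (hX : IsRaySpace X) (U : Set X) (hU : IsOpen U) :
    IsQuasiRaySpace U := by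
  obtain ⟨T, _, hT, ⟨e⟩⟩ := hX
  have h1 := QR_open hT (e.symm ⁻¹' U) (hU.preimage e.symm.continuous)
  have h2 : ∀ u : U, e u.1 ∈ (e.symm ⁻¹' U : Set (RaySpace T)) := by
    intro u
    show e.symm (e u.1) ∈ U
    rw [e.symm_apply_apply]
    exact u.2
  let g : U → (e.symm ⁻¹' U : Set (RaySpace T)) := fun u => ⟨e u.1, h2 u⟩
  have hg : Continuous g := (e.continuous.comp continuous_subtype_val).subtype_mk _
  have h3 : QR U := by
    refine h1.comp g hg ⟨?_, ?_⟩
    · intro u v huv
      exact Subtype.ext (e.injective (congrArg Subtype.val huv))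
    · rintro ⟨R, hR⟩
      exact ⟨⟨e.symm R, hR⟩, Subtype.ext (e.apply_symm_apply R)⟩
  exact h3.isQuasiRaySpace

end Pool.Agent.Results.MP_a0fd6e_gt.OpenSubspacesQuasiRay
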